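import Pool.Agent.Helper10.FT.Gauss

/-! # MP_76c567_pr, Q1: the answer is negative in every degree `d ≥ 3` -/

set_option autoImplicit false
open MeasureTheory ProbabilityTheory

namespace Pool.Agent.Results.MP_76c567_pr.EveryDegree

/-- The process with law `μ` on the graph `G` is invariant under all automorphisms of `G`. -/
def Invariant {V S : Type} [MeasurableSpace S] (G : SimpleGraph V) (μ : Measure (V → S)) : Prop :=
  ∀ φ : G ≃g G, μ.map (fun x : V → S => fun v => x (φ v)) = μ

/-- The process with law `μ` on the graph `G` is `k`-dependent. -/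
def Dependent {V S : Type} [MeasurableSpace S] (G : SimpleGraph V) (k : ℕ) (μ : Measure (V → S)) : Prop :=
  ∀ A B : Set V, (∀ a ∈ A, ∀ b ∈ B, k < G.dist a b) →
    Indep (MeasurableSpace.comap (fun x : V → S => fun a : A => x a) inferInstance)
      (MeasurableSpace.comap (fun x : V → S => fun b : B => x b) inferInstance) μ

/-- The process with law `μ` on `G` is a finitary factor of independent labels with law `lm`: it is the image
of the labels under a measurable map, equivariant almost surely and with finite coding radius almost surely. -/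
def FinitaryFactor {V S L : Type} [MeasurableSpace S] [MeasurableSpace L] (G : SimpleGraph V)
    (lm : Measure L) (μ : Measure (V → S)) : Prop :=
  ∃ F : (V → L) → V → S, Measurable F ∧ (Measure.infinitePi fun _ : V => lm).map F = μ ∧
    (∀ φ : G ≃g G, ∀ᵐ y ∂Measure.infinitePi fun _ : V => lm,
      F (fun v => y (φ v)) = fun v => F y (φ v)) ∧
    ∀ᵐ y ∂Measure.infinitePi fun _ : V => lm, ∀ v : V, ∃ r : ℕ, ∀ y' : V → L,
      (∀ u : V, G.dist v u ≤ r → y' u = y u) → F y' v = F y v

open Pool.Agent.Helper10.FT Filter Topology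

lemma no_factor {d : ℕ} (hd : 3 ≤ d) {L : Type} [MeasurableSpace L] (lm : Measure L)
    [IsProbabilityMeasure lm] {F : (Γ d → L) → Γ d → ℕ → ℝ} (hF : Measurable F)
    (hX : GP KK (fun t y => F y t.1 t.2) (ν lm (Γ d)))
    (he : ∀ g, ∀ᵐ y ∂ν lm (Γ d), F (fun v => y (v * g)) 1 = F y g)
    (hf : ∀ᵐ y ∂ν lm (Γ d), ∃ r : ℕ, ∀ y' : Γ d → L,
      (∀ u : Γ d, norm u ≤ r → y' u = y u) → F y' 1 = F y 1) : False := by
  classical
  let U : ℕ → Set (Γ d → L) := fun r =>
    {y | ∀ y', (∀ u : Γ d, norm u ≤ r → y' u = y u) → F y' 1 = F y 1}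
  have hU : Monotone U := fun r s h y hy y' e => hy y' fun u hu => e u (hu.trans h)
  have t := tendsto_measure_iUnion_atTop (μ := ν lm (Γ d)) hU
  rw [measure_congr (show (⋃ r, U r) =ᵐ[ν lm (Γ d)] Set.univ from
    ae_eq_univ.2 (by simpa [ae_iff, U, Set.compl_def] using hf)), measure_univ] at t
  obtain ⟨r, hr⟩ := (((ENNReal.tendsto_toReal ENNReal.one_ne_top).comp t).eventually
    (lt_mem_nhds (show (59 / 60 : ℝ) < _ by norm_num))).exists
  let B : Finset (Γ d) := (ball_fin r).toFinset
  obtain ⟨W, f, mW, mf, h1, h2⟩ := good lm B (F := fun y => F y 1) (by fun_prop)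
  let V : Γ d → Set (Γ d → L) := fun g => (fun y (i : B) => y (i.1 * g)) ⁻¹' W
  have iB : ∀ g : Γ d, Function.Injective fun i : B => i.1 * g := fun g i j h =>
    Subtype.ext (mul_right_cancel h)
  have mV : ∀ g, MeasurableSet (V g) := fun g => (mp lm (iB g)).measurable mW
  have v1 : 59 / 60 ≤ (ν lm (Γ d)).real (V 1) := hr.le.trans (measureReal_mono fun y hy => by
    simpa [V] using h1 y fun y' e => hy y' fun u hu => e u (by simpa [B] using hu))
  have vg : ∀ g, (ν lm (Γ d)).real (V g) = (ν lm (Γ d)).real (V 1) := fun g =>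
    ((mp lm (iB g)).measureReal_preimage mW.nullMeasurableSet).trans
      ((mp lm (iB 1)).measureReal_preimage mW.nullMeasurableSet).symm
  let D : Finset (Γ d) := (B ×ˢ B).image (fun p => p.1⁻¹ * p.2) ∪ NN 1
  have pos : ∀ j, 0 ≤ ∑ g ∈ D, ∫ y in V 1 ∩ V g, F y 1 j * F y g j ∂ν lm (Γ d) := fun j => by
    let φ : (B → L) → ℝ := W.indicator fun z => f z j
    have mφ : Measurable φ := Measurable.indicator (by fun_prop) mW
    have e : ∀ g, (fun y : Γ d → L => φ fun i : B => y (i.1 * g))
        =ᵐ[ν lm (Γ d)] (V g).indicator fun y => F y g j := fun g => by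
      filter_upwards [he g, (mp lm (mul_left_injective g)).quasiMeasurePreserving.ae h2] with y e1 e2
      by_cases c : y ∈ V g
      · rw [Set.indicator_of_mem c, ← e1, e2 c]; exact Set.indicator_of_mem (s := W) c _
      · rw [Set.indicator_of_notMem c]; exact Set.indicator_of_notMem (s := W) c _
    have l : ∀ g, MemLp (fun y : Γ d → L => φ fun i : B => y (i.1 * g)) 2 (ν lm (Γ d)) :=
      fun g => ((hX.l2 (g, j)).indicator (mV g)).ae_eq (e g).symm
    have l2 : MemLp φ 2 (ν lm B) := by
      rw [← (mp lm (iB 1)).map_eq, memLp_map_measure_iff mφ.aestronglyMeasurable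
        (mp lm (iB 1)).measurable.aemeasurable]
      exact l 1
    have m : ∀ g, ∫ y, φ (fun i : B => y (i.1 * g)) ∂ν lm (Γ d) = ∫ z, φ z ∂ν lm B := fun g => by
      rw [← (mp lm (iB g)).map_eq, integral_map (mp lm (iB g)).measurable.aemeasurable
        mφ.aestronglyMeasurable]
    refine (block lm quot B D (fun b hb b' hb' => Finset.mem_union_left _
      (Finset.mem_image.2 ⟨(b', b), Finset.mk_mem_product hb' hb, rfl⟩)) mφ l2).trans
      (Finset.sum_le_sum fun g _ => ?_)
    have := covariance_eq_sub (l 1) (l g)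
    rw [m, m] at this
    simp only [mul_one] at this
    rw [cv, this, ← integral_indicator ((mV 1).inter (mV g)), sub_le_iff_le_add]
    refine le_add_of_le_of_nonneg (integral_congr_ae ?_).le (mul_self_nonneg _)
    filter_upwards [e 1, e g] with y e1 e2
    simp only [mul_one] at e1
    rw [Pi.mul_apply, e1, e2, ← Set.inter_indicator_mul]
  have lim := tendsto_finsetSum D fun g _ => lln hX 1 g (V 1 ∩ V g)
  have := ge_of_tendsto' lim fun n => by
    rw [← Finset.mul_sum, Finset.sum_comm]
    exact mul_nonneg (by positivity) (Finset.sum_nonneg fun j _ => pos j)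
  rw [← Finset.sum_subset Finset.subset_union_right fun g _ hg => by
    simp only [NN, Finset.mem_insert, Finset.mem_image, not_or, Finset.mem_univ, true_and] at hg
    rw [cc, if_neg (Ne.symm hg.1), if_neg fun ⟨x, e⟩ => hg.2 ⟨x, e.symm⟩, mul_zero],
    NN, Finset.sum_insert (by simpa using ℓ_ne), Finset.sum_image fun x _ y _ h =>
      ℓ_inj (mul_right_cancel h)] at this
  have b : ∀ x, (ν lm (Γ d)).real (V 1 ∩ V (ℓ x * 1)) * cc 1 (ℓ x * 1) ≤ -(29 / 2) := fun x => by
    rw [cc, if_neg (by simpa using (ℓ_ne x).symm), if_pos ⟨x, rfl⟩]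
    have := measureReal_union_add_inter (μ := ν lm (Γ d)) (s := V 1) (mV (ℓ x * 1))
    have := measureReal_le_one (μ := ν lm (Γ d)) (s := V 1 ∪ V (ℓ x * 1))
    linarith [vg (ℓ x * 1)]
  have s := Finset.sum_le_sum fun x (_ : x ∈ Finset.univ) => b x
  have h5 : (ν lm (Γ d)).real (V 1 ∩ V 1) * (16 + 9 * (d : ℝ)) ≤ 16 + 9 * d :=
    mul_le_of_le_one_left (by positivity) measureReal_le_one
  have h6 : (3 : ℝ) ≤ d := by exact_mod_cast hd
  rw [Finset.sum_const, Finset.card_univ, Fintype.card_fin, nsmul_eq_mul] at s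
  have h7 : cc (1 : Γ d) 1 = 16 + 9 * d := by rw [cc, if_pos rfl]
  rw [h7] at this
  linarith

/-- For every `d ≥ 3` there is an automorphism-invariant `1`-dependent process on the `d`-regular tree, with
values in the standard Borel space `ℝ^ℕ`, which is not a finitary factor of any i.i.d. process. -/
theorem result (d : ℕ) (hd : 3 ≤ d) : ∃ (V : Type) (G : SimpleGraph V), Countable V ∧ G.IsTree ∧
    (∀ v : V, (G.neighborSet v).ncard = d) ∧
    ∃ μ : Measure (V → ℕ → ℝ), IsProbabilityMeasure μ ∧ Invariant G μ ∧ Dependent G 1 μ ∧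
      ∀ (L : Type) [MeasurableSpace L] (lm : Measure L), IsProbabilityMeasure lm →
        ¬ FinitaryFactor G lm μ := by
  obtain ⟨μ, hμ⟩ := exists_gp (d := d)
  refine ⟨Γ d, G d, toWord_injective.countable, tree, deg, μ, hμ.g.isProbabilityMeasure, fun φ => ?_,
    fun A B h => ?_, fun L _ lm _ ⟨F, hF, hm, he, hf⟩ => ?_⟩
  · have h' : GP KK (fun t (x : Γ d → ℕ → ℝ) => x (φ t.1) t.2) μ := by
      have e : KK = fun s t : Γ d × ℕ => KK (φ s.1, s.2) (φ t.1, t.2) := by
        ext s t
        have : (G d).Adj (φ s.1) (φ t.1) ↔ (G d).Adj s.1 t.1 := φ.map_rel_iff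
        simp only [KK, cc]
        by_cases c0 : s.1 = t.1
        · rw [if_pos c0, if_pos (congrArg φ c0)]
        · rw [if_neg c0, if_neg fun h => c0 (φ.injective h)]
          by_cases c : (G d).Adj s.1 t.1
          · rw [if_pos c, if_pos (this.2 c)]
          · rw [if_neg c, if_neg (mt this.1 c)]
      rw [e]
      exact hμ.re fun t : Γ d × ℕ => (φ t.1, t.2)
    have := congrArg (Measure.map Function.curry) (h'.ext hμ)
    rw [Measure.map_map (by fun_prop) (by fun_prop), Measure.map_map (by fun_prop) (by fun_prop)]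
      at this
    exact this.trans Measure.map_id
  · exact (IndepFun_iff_Indep _ _ _).1
      ((hμ.indep (fun s : A × ℕ => (s.1.1, s.2)) (fun s : B × ℕ => (s.1.1, s.2)) fun s t => by
        have := h _ s.1.2 _ t.1.2
        simp only [KK, cc]
        rw [if_neg (c := s.1.1 = t.1.1) fun e => by simp [e] at this,
          if_neg (c := (G d).Adj _ _) fun e => by simp [SimpleGraph.dist_eq_one_iff_adj.2 e] at this,
          ite_self]).comp (φ := Function.curry) (ψ := Function.curry) (by fun_prop) (by fun_prop))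
  · refine no_factor hd lm hF ((GP.iff ⟨hF, hm⟩ (by fun_prop)).1 hμ) (fun g => ?_) ?_
    · filter_upwards [he (rmul g)] with y h
      exact (congrFun h 1).trans (congrArg (F y) (one_mul g))
    · filter_upwards [hf] with y h
      obtain ⟨r, h⟩ := h 1
      exact ⟨r, fun y' e => h y' fun u hu => e u ((norm_le_dist u).trans hu)⟩

end Pool.Agent.Results.MP_76c567_pr.EveryDegree
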